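import Mathlib

/-!
Engel lattice-ordered groups acting on complete chains.

`ChainAct G Ω` : the lattice-ordered group `G` acts on the left on the chain `Ω` by order
automorphisms, lattice operations being computed pointwise, and every subset of `Ω` has a
supremum.
-/

set_option autoImplicit false

namespace Pool.Agent.H12.Engel

/-- The Engel property. -/
def IsEngel (G : Type*) [Group G] : Prop :=
  ∀ x y : G, ∃ n : ℕ, (fun z : G => z⁻¹ * y⁻¹ * z * y)^[n] x = 1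

structure ChainAct (G Ω : Type*) [Group G] [Lattice G] [LinearOrder Ω] [MulAction G Ω] :
    Prop where
  mono : ∀ (g : G) {ω ω' : Ω}, ω ≤ ω' → g • ω ≤ g • ω'
  le_act : ∀ {g h : G}, g ≤ h → ∀ ω : Ω, g • ω ≤ h • ω
  sup_act : ∀ (g h : G) (ω : Ω), (g ⊔ h) • ω = g • ω ∨ (g ⊔ h) • ω = h • ω
  lub : ∀ S : Set Ω, ∃ s, IsLUB S s

namespace ChainAct

variable {G Ω : Type*} [Group G] [Lattice G] [LinearOrder Ω] [MulAction G Ω]

theorem strictMono (hC : ChainAct G Ω) (g : G) {ω ω' : Ω} (h : ω < ω') : g • ω < g • ω' := by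
  rcases lt_or_eq_of_le (hC.mono g h.le) with h1 | h1
  · exact h1
  · exact absurd (smul_left_cancel g h1) h.ne

theorem le_iff (hC : ChainAct G Ω) (g : G) {ω ω' : Ω} : g • ω ≤ g • ω' ↔ ω ≤ ω' := by
  constructor
  · intro h
    have := hC.mono g⁻¹ h
    simpa using this
  · exact hC.mono g

theorem lt_iff (hC : ChainAct G Ω) (g : G) {ω ω' : Ω} : g • ω < g • ω' ↔ ω < ω' := by
  rw [← not_le, ← not_le, hC.le_iff g]

theorem inv_le_iff (hC : ChainAct G Ω) (g : G) {ω ω' : Ω} : g⁻¹ • ω ≤ ω' ↔ ω ≤ g • ω' := by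
  rw [← hC.le_iff g, smul_inv_smul]

theorem le_inv_iff (hC : ChainAct G Ω) (g : G) {ω ω' : Ω} : ω ≤ g⁻¹ • ω' ↔ g • ω ≤ ω' := by
  rw [← hC.le_iff g, smul_inv_smul]

variable [MulLeftMono G] [MulRightMono G]

theorem inf_act (hC : ChainAct G Ω) (g h : G) (ω : Ω) :
    (g ⊓ h) • ω = g • ω ∨ (g ⊓ h) • ω = h • ω := by
  have key : (g ⊓ h)⁻¹ = g⁻¹ ⊔ h⁻¹ := inv_inf g h
  have h1 := hC.sup_act g⁻¹ h⁻¹ ((g ⊓ h) • ω)
  rw [← key, inv_smul_smul] at h1
  rcases h1 with h1 | h1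
  · left
    exact eq_inv_smul_iff.mp h1 ▸ rfl
  · right
    exact eq_inv_smul_iff.mp h1 ▸ rfl

omit [MulLeftMono G] [MulRightMono G]

/-- supremum of a set of fixed points is fixed. -/
theorem fix_lub (hC : ChainAct G Ω) (g : G) {S : Set Ω} {s : Ω} (hs : IsLUB S s)
    (hS : ∀ x ∈ S, g • x = x) : g • s = s := by
  apply le_antisymm
  · have : s ≤ g⁻¹ • s := by
      apply hs.2
      intro x hx
      rw [hC.le_inv_iff, hS x hx]
      exact hs.1 hx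
    rwa [hC.le_inv_iff] at this
  · apply hs.2
    intro x hx
    rw [← hS x hx]
    exact hC.mono g (hs.1 hx)

/-- infimum of a set of fixed points is fixed. -/
theorem fix_glb (hC : ChainAct G Ω) (g : G) {S : Set Ω} {s : Ω} (hs : IsGLB S s)
    (hS : ∀ x ∈ S, g • x = x) : g • s = s := by
  apply le_antisymm
  · apply hs.2
    intro x hx
    rw [← hS x hx]
    exact hC.mono g (hs.1 hx)
  · have : g⁻¹ • s ≤ s := by
      apply hs.2
      intro x hx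
      rw [hC.inv_le_iff, hS x hx]
      exact hs.1 hx
    rwa [hC.inv_le_iff] at this

theorem glb (hC : ChainAct G Ω) (S : Set Ω) : ∃ s, IsGLB S s := by
  obtain ⟨s, hs⟩ := hC.lub (lowerBounds S)
  exact ⟨s, isLUB_lowerBounds.mp hs⟩

theorem one_le_act (hC : ChainAct G Ω) {g : G} (hg : 1 ≤ g) (ω : Ω) : ω ≤ g • ω := by
  have := hC.le_act hg ω
  simpa using this

/-- Lemma 1: the basic non-Engel configuration. -/
theorem lemma1 (hC : ChainAct G Ω) (hE : IsEngel G) (x y : G) (hy : 1 ≤ y) {ω β : Ω}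
    (hω : y • ω = ω) (hβ : y • β = β) (hxβ : x • β = β) (hx : ω < x • ω) (hlt : ω < β)
    (hno : ∀ δ, ω < δ → δ < β → y • δ ≠ δ) : False := by
  obtain ⟨n, hn⟩ := hE x y⁻¹
  have key : ∀ n : ℕ, ω < ((fun z : G => z⁻¹ * (y⁻¹)⁻¹ * z * y⁻¹)^[n] x) • ω ∧
      ((fun z : G => z⁻¹ * (y⁻¹)⁻¹ * z * y⁻¹)^[n] x) • β = β := by
    intro n
    induction n with
    | zero => exact ⟨hx, hxβ⟩
    | succ n ih =>
      rw [Function.iterate_succ_apply']
      generalize (fun z : G => z⁻¹ * (y⁻¹)⁻¹ * z * y⁻¹)^[n] x = w at ih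
      obtain ⟨h1, h2⟩ := ih
      have e1 : y⁻¹ • ω = ω := by rw [inv_smul_eq_iff, hω]
      have e2 : y⁻¹ • β = β := by rw [inv_smul_eq_iff, hβ]
      have e3 : w⁻¹ • β = β := by rw [inv_smul_eq_iff, h2]
      constructor
      · simp only [inv_inv, mul_smul]
        rw [e1]
        have h3 : w • ω < β := by
          conv_rhs => rw [← h2]
          exact hC.strictMono w hlt
        have h4 : w • ω < y • w • ω :=
          lt_of_le_of_ne (hC.one_le_act hy _) (hno _ h1 h3).symm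
        have h5 := hC.strictMono w⁻¹ h4
        rwa [inv_smul_smul] at h5
      · simp only [inv_inv, mul_smul]
        rw [e2, h2, hβ, e3]
  have := (key n).1
  rw [hn, one_smul] at this
  exact lt_irrefl _ this

variable [MulLeftMono G] [MulRightMono G]

/-- Lemma 2: `y'` fixes `δ₀`, `δ₁` is the least fixed point of `y` above `δ₀`; then `y'` fixes
`δ₁`. -/
theorem lemma2 (hC : ChainAct G Ω) (hE : IsEngel G) {y y' : G} (hy : 1 ≤ y) (hy' : 1 ≤ y')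
    {δ₀ δ₁ : Ω} (h0 : y' • δ₀ = δ₀) (h1 : IsGLB {δ | δ₀ ≤ δ ∧ y • δ = δ} δ₁) :
    y' • δ₁ = δ₁ := by
  have hfix1 : y • δ₁ = δ₁ := hC.fix_glb y h1 (fun x hx => hx.2)
  have h01 : δ₀ ≤ δ₁ := h1.2 (fun x hx => hx.1)
  obtain ⟨ω, hω⟩ := hC.lub {δ | δ₀ ≤ δ ∧ δ ≤ δ₁ ∧ y' • δ = δ}
  have hωfix : y' • ω = ω := hC.fix_lub y' hω (fun x hx => hx.2.2)
  have hω0 : δ₀ ≤ ω := hω.1 ⟨le_refl _, h01, h0⟩
  have hω1 : ω ≤ δ₁ := hω.2 (fun x hx => hx.2.1)
  rcases eq_or_lt_of_le hω1 with he | hlt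
  · rw [← he]; exact hωfix
  exfalso
  have hyω : ω < y • ω := by
    refine lt_of_le_of_ne (hC.one_le_act hy _) ?_
    intro h
    have : δ₁ ≤ ω := h1.1 ⟨hω0, h.symm⟩
    exact absurd hlt (not_lt.mpr this)
  have hw : 1 ≤ y ⊓ y' := le_inf hy hy'
  refine hC.lemma1 hE y (y ⊓ y') hw (ω := ω) (β := δ₁) ?_ ?_ hfix1 hyω hlt ?_
  · apply le_antisymm _ (hC.one_le_act hw _)
    calc (y ⊓ y') • ω ≤ y' • ω := hC.le_act inf_le_right _
      _ = ω := hωfix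
  · apply le_antisymm _ (hC.one_le_act hw _)
    calc (y ⊓ y') • δ₁ ≤ y • δ₁ := hC.le_act inf_le_left _
      _ = δ₁ := hfix1
  · intro δ hδ1 hδ2 hδ
    rcases hC.inf_act y y' δ with h | h
    · rw [hδ] at h
      have : δ₁ ≤ δ := h1.1 ⟨hω0.trans hδ1.le, h.symm⟩
      exact absurd hδ2 (not_lt.mpr this)
    · rw [hδ] at h
      have : δ ≤ ω := hω.1 ⟨hω0.trans hδ1.le, hδ2.le, h.symm⟩
      exact absurd hδ1 (not_lt.mpr this)

/-- (*) common fixed points. -/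
theorem common (hC : ChainAct G Ω) (hE : IsEngel G) {h h' : G} (hh : 1 ≤ h) (hh' : 1 ≤ h')
    {δ ε α β : Ω} (hδ : h • δ = δ) (hε : h' • ε = ε) (h1 : α < δ) (h2 : δ < β)
    (h3 : α < ε) (h4 : ε < β) :
    ∃ γ, α < γ ∧ γ < β ∧ h • γ = γ ∧ h' • γ = γ := by
  rcases le_total δ ε with hle | hle
  · obtain ⟨γ, hγ⟩ := hC.glb {x | δ ≤ x ∧ h' • x = x}
    refine ⟨γ, lt_of_lt_of_le h1 (hγ.2 (fun x hx => hx.1)),
      lt_of_le_of_lt (hγ.1 ⟨hle, hε⟩) h4, hC.lemma2 hE hh' hh hδ hγ,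
      hC.fix_glb h' hγ (fun x hx => hx.2)⟩
  · obtain ⟨γ, hγ⟩ := hC.glb {x | ε ≤ x ∧ h • x = x}
    refine ⟨γ, lt_of_lt_of_le h3 (hγ.2 (fun x hx => hx.1)),
      lt_of_le_of_lt (hγ.1 ⟨hle, hδ⟩) h2, hC.fix_glb h hγ (fun x hx => hx.2),
      hC.lemma2 hE hh hh' hε hγ⟩

end ChainAct

end Pool.Agent.H12.Engel
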