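import Pool.Agent.H12.EngelChain

/-!
Main step: in an Engel lattice-ordered group, `a ⊓ g⁻¹ * a * g = 1` with `1 ≤ a` forces
`a = 1` (here: forces `a` to act trivially on every chain of the type considered).
-/

set_option autoImplicit false

namespace Pool.Agent.H12.Engel

/-- Abstract growth lemma for a bi-invariant transitive relation. -/
theorem growth {G : Type*} [Group G] (K : Subgroup G) (R : G → G → Prop)
    (htrans : ∀ a b c, R a b → R b c → R a c)
    (hleft : ∀ a b c, R a b → R (c * a) (c * b))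
    (hright : ∀ a b c, c ∈ K → R a b → R (a * c) (b * c))
    (κ : G) (hκK : κ ∈ K) (hκ : R 1 κ) (hrefl : ∀ a, R a a)
    (harch : ∀ h ∈ K, ∃ l : ℕ, R h (κ ^ l))
    (d : ℕ → ℕ → G) (hdK : ∀ j i, d j i ∈ K)
    (hd : ∀ j i, d j (i + 1) = d j i * d (j + 1) i)
    (k : ℕ) (hk : ∃ i₀, ∀ i, i₀ ≤ i → R κ (d k i)) :
    ∀ m, m ≤ k → ∃ i₀, ∀ i, i₀ ≤ i → R κ (d (k - m) i) := by
  intro m
  induction m with
  | zero => intro _; simpa using hk
  | succ m ih =>
    intro hm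
    obtain ⟨i₀, hi₀⟩ := ih (by omega)
    set j := k - (m + 1) with hj
    have hj1 : k - m = j + 1 := by omega
    rw [hj1] at hi₀
    -- monotonicity of powers
    have hpow : ∀ l s : ℕ, R (κ ^ l) (κ ^ (l + s)) := by
      intro l s
      induction s with
      | zero => exact hrefl _
      | succ s ihs =>
        refine htrans _ _ _ ihs ?_
        have := hleft 1 κ (κ ^ (l + s)) hκ
        rw [mul_one] at this
        rw [show l + (s + 1) = (l + s) + 1 by ring, pow_succ]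
        exact this
    have step : ∀ l : ℕ, R (d j i₀ * κ ^ l) (d j (i₀ + l)) := by
      intro l
      induction l with
      | zero => simpa using hrefl _
      | succ l ihl =>
        have e1 : R (d j i₀ * κ ^ l * κ) (d j (i₀ + l) * κ) := hright _ _ _ hκK ihl
        have e2 : R (d j (i₀ + l) * κ) (d j (i₀ + l) * d (j + 1) (i₀ + l)) :=
          hleft _ _ _ (hi₀ _ (by omega))
        have e3 := htrans _ _ _ e1 e2
        rw [show i₀ + (l + 1) = (i₀ + l) + 1 by ring, hd j (i₀ + l), pow_succ, ← mul_assoc]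
        exact e3
    obtain ⟨l₀, hl₀⟩ := harch ((d j i₀)⁻¹ * κ) (K.mul_mem (K.inv_mem (hdK _ _)) hκK)
    refine ⟨i₀ + l₀, fun i hi => ?_⟩
    obtain ⟨l, rfl⟩ : ∃ l, i = i₀ + (l₀ + l) := ⟨i - i₀ - l₀, by omega⟩
    have f1 : R κ (d j i₀ * κ ^ l₀) := by
      have := hleft _ _ (d j i₀) hl₀
      simpa [mul_assoc] using this
    have f2 : R (d j i₀ * κ ^ l₀) (d j i₀ * κ ^ (l₀ + l)) := hleft _ _ _ (hpow l₀ l)
    exact htrans _ _ _ f1 (htrans _ _ _ f2 (step _))

namespace ChainAct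

variable {G Ω : Type*} [Group G] [Lattice G] [LinearOrder Ω] [MulAction G Ω]

/-- the relation `a ≼ b` on the open interval `(α, β)`. -/
def R (G : Type*) {Ω : Type*} [Group G] [LinearOrder Ω] [MulAction G Ω] (α β : Ω) (a b : G) :
    Prop :=
  ∃ δ, α < δ ∧ δ < β ∧ a • δ ≤ b • δ

theorem R_left (hC : ChainAct G Ω) {α β : Ω} (a b c : G) (h : R G α β a b) :
    R G α β (c * a) (c * b) := by
  obtain ⟨δ, h1, h2, h3⟩ := h
  refine ⟨δ, h1, h2, ?_⟩
  rw [mul_smul, mul_smul]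
  exact hC.mono c h3

theorem R_right (hC : ChainAct G Ω) {α β : Ω} (a b c : G) (hα : c • α = α) (hβ : c • β = β)
    (h : R G α β a b) : R G α β (a * c) (b * c) := by
  obtain ⟨δ, h1, h2, h3⟩ := h
  refine ⟨c⁻¹ • δ, ?_, ?_, ?_⟩
  · rw [← hC.lt_iff c, smul_inv_smul, hα]; exact h1
  · rw [← hC.lt_iff c, smul_inv_smul, hβ]; exact h2
  · rw [mul_smul, mul_smul, smul_inv_smul]; exact h3

variable [MulLeftMono G] [MulRightMono G]

omit [MulLeftMono G] [MulRightMono G] in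
theorem sup_one_fix (hC : ChainAct G Ω) {a : G} {δ : Ω} (h : a • δ ≤ δ) :
    (a ⊔ 1) • δ = δ := by
  rcases hC.sup_act a 1 δ with h1 | h1
  · apply le_antisymm
    · rw [h1]; exact h
    · exact hC.one_le_act le_sup_right δ
  · rw [h1, one_smul]

theorem R_one_mul (hC : ChainAct G Ω) (hE : IsEngel G) {α β : Ω} (a b : G)
    (ha : R G α β 1 a) (hb : R G α β 1 b) : R G α β 1 (a * b) := by
  obtain ⟨δ, h1, h2, h3⟩ := ha
  obtain ⟨ε, h4, h5, h6⟩ := hb
  rw [one_smul] at h3 h6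
  have ea : (a⁻¹ ⊔ 1) • δ = δ := hC.sup_one_fix ((hC.inv_le_iff a).mpr h3)
  have eb : (b⁻¹ ⊔ 1) • ε = ε := hC.sup_one_fix ((hC.inv_le_iff b).mpr h6)
  obtain ⟨γ, g1, g2, g3, g4⟩ := hC.common hE le_sup_right le_sup_right ea eb h1 h2 h4 h5
  refine ⟨γ, g1, g2, ?_⟩
  have ka : γ ≤ a • γ := by
    rw [← hC.inv_le_iff]
    calc a⁻¹ • γ ≤ (a⁻¹ ⊔ 1) • γ := hC.le_act le_sup_left _
      _ = γ := g3
  have kb : γ ≤ b • γ := by
    rw [← hC.inv_le_iff]
    calc b⁻¹ • γ ≤ (b⁻¹ ⊔ 1) • γ := hC.le_act le_sup_left _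
      _ = γ := g4
  rw [one_smul, mul_smul]
  exact ka.trans (hC.mono a kb)

theorem R_trans (hC : ChainAct G Ω) (hE : IsEngel G) {α β : Ω} (a b c : G)
    (hab : R G α β a b) (hbc : R G α β b c) : R G α β a c := by
  have h1 := hC.R_left _ _ a⁻¹ hab
  have h2 := hC.R_left _ _ b⁻¹ hbc
  rw [inv_mul_cancel] at h1 h2
  have h3 := hC.R_one_mul hE _ _ h1 h2
  have h4 := hC.R_left _ _ a h3
  simpa [mul_assoc] using h4

theorem fix_of_R (hC : ChainAct G Ω) (hE : IsEngel G) {α β : Ω} (h : G)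
    (h1 : R G α β 1 h) (h2 : R G α β h 1) : ∃ γ, α < γ ∧ γ < β ∧ h • γ = γ := by
  obtain ⟨δ, a1, a2, a3⟩ := h1
  obtain ⟨ε, b1, b2, b3⟩ := h2
  rw [one_smul] at a3 b3
  have ea : (h⁻¹ ⊔ 1) • δ = δ := hC.sup_one_fix ((hC.inv_le_iff h).mpr a3)
  have eb : (h ⊔ 1) • ε = ε := hC.sup_one_fix b3
  obtain ⟨γ, g1, g2, g3, g4⟩ := hC.common hE le_sup_right le_sup_right ea eb a1 a2 b1 b2
  refine ⟨γ, g1, g2, le_antisymm ?_ ?_⟩
  · calc h • γ ≤ (h ⊔ 1) • γ := hC.le_act le_sup_left _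
      _ = γ := g4
  · rw [← hC.inv_le_iff]
    calc h⁻¹ • γ ≤ (h⁻¹ ⊔ 1) • γ := hC.le_act le_sup_left _
      _ = γ := g3

theorem exists_u (hC : ChainAct G Ω) (hE : IsEngel G) (c : ℕ → G) (n : ℕ) :
    ∃ u : G, 1 ≤ u ∧ (∀ j < n, c j ≤ u ∧ (c j)⁻¹ ≤ u) ∧
      ∀ α β : Ω, (∃ δ, α < δ ∧ δ < β) → (∀ j < n, ∃ δ, α < δ ∧ δ < β ∧ c j • δ = δ) →
        ∃ δ, α < δ ∧ δ < β ∧ u • δ = δ := by
  induction n with
  | zero =>
    refine ⟨1, le_refl _, fun j hj => absurd hj (Nat.not_lt_zero _), ?_⟩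
    rintro α β ⟨δ, h1, h2⟩ _
    exact ⟨δ, h1, h2, one_smul _ _⟩
  | succ n ih =>
    obtain ⟨u, hu, hcu, hfix⟩ := ih
    set v := (c n ⊔ 1) * ((c n)⁻¹ ⊔ 1) with hv
    have hv1 : c n ≤ v := by
      calc c n ≤ c n ⊔ 1 := le_sup_left
        _ = (c n ⊔ 1) * 1 := (mul_one _).symm
        _ ≤ v := mul_le_mul_right le_sup_right _
    have hv2 : (c n)⁻¹ ≤ v := by
      calc (c n)⁻¹ ≤ (c n)⁻¹ ⊔ 1 := le_sup_left
        _ = 1 * ((c n)⁻¹ ⊔ 1) := (one_mul _).symm
        _ ≤ v := mul_le_mul_left le_sup_right _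
    have hv3 : 1 ≤ v := one_le_mul le_sup_right le_sup_right
    refine ⟨u * v, one_le_mul hu hv3, ?_, ?_⟩
    · intro j hj
      rcases Nat.lt_succ_iff_lt_or_eq.mp hj with h | h
      · have h1 : u ≤ u * v := le_mul_of_one_le_right' hv3
        exact ⟨(hcu j h).1.trans h1, (hcu j h).2.trans h1⟩
      · subst h
        have h1 : v ≤ u * v := le_mul_of_one_le_left' hu
        exact ⟨hv1.trans h1, hv2.trans h1⟩
    · intro α β hne hall
      obtain ⟨δ, d1, d2, d3⟩ := hfix α β hne (fun j hj => hall j (Nat.lt_succ_of_lt hj))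
      obtain ⟨ε, e1, e2, e3⟩ := hall n (Nat.lt_succ_self n)
      have e4 : v • ε = ε := by
        have i1 : (c n ⊔ 1) • ε = ε := hC.sup_one_fix e3.le
        have i2 : ((c n)⁻¹ ⊔ 1) • ε = ε :=
          hC.sup_one_fix (by rw [hC.inv_le_iff, e3])
        rw [hv, mul_smul, i2, i1]
      obtain ⟨γ, g1, g2, g3, g4⟩ := hC.common hE hu hv3 d3 e4 d1 d2 e1 e2
      exact ⟨γ, g1, g2, by rw [mul_smul, g4, g3]⟩

/-- The main step. -/
theorem disjoint_conj (hC : ChainAct G Ω) (hE : IsEngel G) (a g : G) (ha : 1 ≤ a)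
    (hd : a ⊓ g⁻¹ * a * g = 1) (ω₀ : Ω) : a • ω₀ = ω₀ := by
  by_contra hne
  have hω₀ : ω₀ < a • ω₀ := lt_of_le_of_ne (hC.one_le_act ha ω₀) (Ne.symm hne)
  set f : G → G := fun z => z⁻¹ * g⁻¹ * z * g with hf
  set c : ℕ → G := fun j => f^[j] a with hc
  obtain ⟨n, hn⟩ := hE a g
  have hc0 : c 0 = a := rfl
  have hcs : ∀ j, c (j + 1) = (c j)⁻¹ * g⁻¹ * c j * g := by
    intro j
    simp only [hc, Function.iterate_succ_apply', hf]
  have hcn : ∀ j, n ≤ j → c j = 1 := by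
    intro j hj
    induction j, hj using Nat.le_induction with
    | base => exact hn
    | succ j _ ih => rw [hcs, ih]; simp
  set d : ℕ → ℕ → G := fun j i => (g ^ i)⁻¹ * c j * g ^ i with hdd
  have hd0 : ∀ j, d j 0 = c j := by intro j; simp [hdd]
  have hds : ∀ j i, d j (i + 1) = d j i * d (j + 1) i := by
    intro j i
    simp only [hdd, hcs, pow_succ]
    group
  -- consecutive conjugates are disjoint
  have hb : ∀ i, d 0 i ⊓ d 0 (i + 1) = 1 := by
    intro i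
    have e : d 0 i ⊓ d 0 (i + 1) = (g ^ i)⁻¹ * (a ⊓ g⁻¹ * a * g) * g ^ i := by
      rw [mul_inf, inf_mul]
      congr 1
      simp only [hdd, hc0, pow_succ']
      group
    rw [e, hd]; simp
  have hb1 : ∀ i, 1 ≤ d 0 i := fun i => by rw [← hb i]; exact inf_le_left
  obtain ⟨u, hu1, hcu, hufix⟩ := hC.exists_u hE c n
  have hn0 : 0 < n := by
    rcases Nat.eq_zero_or_pos n with h | h
    · exfalso
      have := hcn 0 (by omega)
      rw [hc0] at this
      rw [this, one_smul] at hω₀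
      exact lt_irrefl _ hω₀
    · exact h
  have hau : a ≤ u := (hcu 0 hn0).1
  have huω : ω₀ < u • ω₀ := lt_of_lt_of_le hω₀ (hC.le_act hau ω₀)
  obtain ⟨α, hα⟩ := hC.lub {δ | δ ≤ ω₀ ∧ u • δ = δ}
  obtain ⟨β, hβ⟩ := hC.glb {δ | ω₀ ≤ δ ∧ u • δ = δ}
  have hαfix : u • α = α := hC.fix_lub u hα (fun x hx => hx.2)
  have hβfix : u • β = β := hC.fix_glb u hβ (fun x hx => hx.2)
  have hαω : α < ω₀ := by
    refine lt_of_le_of_ne (hα.2 (fun x hx => hx.1)) ?_
    rintro rfl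
    exact absurd hαfix huω.ne'
  have hωβ : ω₀ < β := by
    refine lt_of_le_of_ne (hβ.2 (fun x hx => hx.1)) ?_
    rintro rfl
    exact absurd hβfix huω.ne'
  have hunofix : ∀ δ, α < δ → δ < β → u • δ ≠ δ := by
    intro δ h1 h2 h3
    rcases le_total δ ω₀ with h | h
    · exact absurd h1 (not_lt.mpr (hα.1 ⟨h, h3⟩))
    · exact absurd h2 (not_lt.mpr (hβ.1 ⟨h, h3⟩))
  -- the stabiliser
  let K : Subgroup G :=
    { carrier := {h | h • α = α ∧ h • β = β}
      mul_mem' := by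
        rintro x y ⟨h1, h2⟩ ⟨h3, h4⟩
        exact ⟨by rw [mul_smul, h3, h1], by rw [mul_smul, h4, h2]⟩
      one_mem' := ⟨one_smul _ _, one_smul _ _⟩
      inv_mem' := by
        rintro x ⟨h1, h2⟩
        exact ⟨by rw [inv_smul_eq_iff, h1], by rw [inv_smul_eq_iff, h2]⟩ }
  have hfixpt : ∀ h : G, h ≤ u → h⁻¹ ≤ u → ∀ x : Ω, u • x = x → h • x = x := by
    intro h h1 h2 x hx
    apply le_antisymm
    · calc h • x ≤ u • x := hC.le_act h1 x
        _ = x := hx
    · rw [← hC.inv_le_iff]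
      calc h⁻¹ • x ≤ u • x := hC.le_act h2 x
        _ = x := hx
  have hcK : ∀ j, c j ∈ K := by
    intro j
    rcases lt_or_ge j n with h | h
    · exact ⟨hfixpt _ (hcu j h).1 (hcu j h).2 α hαfix, hfixpt _ (hcu j h).1 (hcu j h).2 β hβfix⟩
    · rw [hcn j h]; exact K.one_mem
  have hdK : ∀ i j, d j i ∈ K := by
    intro i
    induction i with
    | zero => intro j; rw [hd0]; exact hcK j
    | succ i ih => intro j; rw [hds]; exact K.mul_mem (ih j) (ih (j + 1))
  -- some `c j` has no fixed point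
  have hex : ∃ j, j < n ∧ ¬ ∃ δ, α < δ ∧ δ < β ∧ c j • δ = δ := by
    by_contra hcon
    push Not at hcon
    obtain ⟨δ, h1, h2, h3⟩ := hufix α β ⟨ω₀, hαω, hωβ⟩ (fun j hj => hcon j hj)
    exact hunofix δ h1 h2 h3
  -- choose the largest one
  obtain ⟨k, hkno, hkmax⟩ : ∃ k, (¬ ∃ δ, α < δ ∧ δ < β ∧ c k • δ = δ) ∧
      ∀ j, k < j → ∃ δ, α < δ ∧ δ < β ∧ c j • δ = δ := by
    classical
    obtain ⟨j₀, hj₀n, hj₀⟩ := hex
    refine ⟨Nat.findGreatest (fun j => ¬ ∃ δ, α < δ ∧ δ < β ∧ c j • δ = δ) n, ?_, ?_⟩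
    · exact Nat.findGreatest_spec (P := fun j => ¬ ∃ δ, α < δ ∧ δ < β ∧ c j • δ = δ)
        hj₀n.le hj₀
    · intro j hj
      rcases le_or_gt j n with h | h
      · by_contra hcon
        exact Nat.findGreatest_is_greatest hj h hcon
      · exact ⟨ω₀, hαω, hωβ, by rw [hcn j h.le, one_smul]⟩
  -- for j > k everything is equivalent to 1
  have hbig : ∀ i j, k < j → R G α β 1 (d j i) ∧ R G α β (d j i) 1 := by
    intro i
    induction i with
    | zero =>
      intro j hj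
      obtain ⟨δ, h1, h2, h3⟩ := hkmax j hj
      rw [hd0]
      exact ⟨⟨δ, h1, h2, by rw [one_smul, h3]⟩, ⟨δ, h1, h2, by rw [one_smul, h3]⟩⟩
    | succ i ih =>
      intro j hj
      obtain ⟨p1, p2⟩ := ih j hj
      obtain ⟨q1, q2⟩ := ih (j + 1) (by omega)
      rw [hds]
      refine ⟨hC.R_one_mul hE _ _ p1 q1, ?_⟩
      have := hC.R_left _ _ (d j i) q2
      rw [mul_one] at this
      exact hC.R_trans hE _ _ _ this p2
  have hκK : c k ∈ K := hcK k
  have htrans := hC.R_trans hE (α := α) (β := β)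
  have hrefl : ∀ x, R G α β x x := fun x => ⟨ω₀, hαω, hωβ, le_refl _⟩
  -- d k i is equivalent to c k
  have hkk : ∀ i, R G α β (c k) (d k i) ∧ R G α β (d k i) (c k) := by
    intro i
    induction i with
    | zero => rw [hd0]; exact ⟨hrefl _, hrefl _⟩
    | succ i ih =>
      obtain ⟨p1, p2⟩ := ih
      obtain ⟨q1, q2⟩ := hbig i (k + 1) (by omega)
      have r1 := hC.R_left _ _ (d k i) q1
      have r2 := hC.R_left _ _ (d k i) q2
      rw [mul_one] at r1 r2
      rw [hds]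
      exact ⟨htrans _ _ _ p1 r1, htrans _ _ _ r2 p2⟩
  by_cases hpos : R G α β (c k) 1
  · by_cases hneg : R G α β 1 (c k)
    · exact hkno (hC.fix_of_R hE _ hneg hpos)
    · -- negative case
      have hneg' : ∀ δ, α < δ → δ < β → c k • δ < δ := by
        intro δ h1 h2
        by_contra h3
        exact hneg ⟨δ, h1, h2, by rw [one_smul]; exact not_lt.mp h3⟩
      have harch : ∀ h ∈ K, ∃ l : ℕ, R G α β (c k ^ l) h := by
        intro h hh
        by_contra hcon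
        push Not at hcon
        have hlt : ∀ l : ℕ, h • ω₀ < c k ^ l • ω₀ := by
          intro l
          by_contra h3
          exact hcon l ⟨ω₀, hαω, hωβ, not_lt.mp h3⟩
        obtain ⟨τ, hτ⟩ := hC.glb (Set.range (fun l : ℕ => c k ^ l • ω₀))
        have t1 : h • ω₀ ≤ τ := hτ.2 (by rintro _ ⟨l, rfl⟩; exact (hlt l).le)
        have t2 : α < τ := by
          refine lt_of_lt_of_le ?_ t1
          have := hC.strictMono h hαω
          rwa [hh.1] at this
        have t3 : τ ≤ ω₀ := by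
          have : τ ≤ c k ^ 0 • ω₀ := hτ.1 ⟨0, rfl⟩
          simpa using this
        have t4 := hneg' τ t2 (lt_of_le_of_lt t3 hωβ)
        have t5 : (c k)⁻¹ • τ ≤ τ := by
          apply hτ.2
          rintro _ ⟨l, rfl⟩
          rw [hC.inv_le_iff, smul_smul, ← pow_succ']
          exact hτ.1 ⟨l + 1, rfl⟩
        rw [hC.inv_le_iff] at t5
        exact absurd t4 (not_lt.mpr t5)
      have hg := growth K (fun x y => R G α β y x)
        (fun x y z h1 h2 => htrans _ _ _ h2 h1)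
        (fun x y z h1 => hC.R_left _ _ z h1)
        (fun x y z hz h1 => hC.R_right _ _ z hz.1 hz.2 h1)
        (c k) hκK hpos hrefl harch d (fun j i => hdK i j) hds k
        ⟨0, fun i _ => (hkk i).2⟩ k le_rfl
      obtain ⟨i₀, hi₀⟩ := hg
      have h5 := hi₀ i₀ le_rfl
      rw [Nat.sub_self] at h5
      have h6 : R G α β 1 (d 0 i₀) :=
        ⟨ω₀, hαω, hωβ, hC.le_act (hb1 i₀) ω₀⟩
      exact hneg (htrans _ _ _ h6 h5)
  · -- positive case
    have hpos' : ∀ δ, α < δ → δ < β → δ < c k • δ := by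
      intro δ h1 h2
      by_contra h3
      exact hpos ⟨δ, h1, h2, by rw [one_smul]; exact not_lt.mp h3⟩
    have hposR : R G α β 1 (c k) :=
      ⟨ω₀, hαω, hωβ, by rw [one_smul]; exact (hpos' ω₀ hαω hωβ).le⟩
    have harch : ∀ h ∈ K, ∃ l : ℕ, R G α β h (c k ^ l) := by
      intro h hh
      by_contra hcon
      push Not at hcon
      have hlt : ∀ l : ℕ, c k ^ l • ω₀ < h • ω₀ := by
        intro l
        by_contra h3
        exact hcon l ⟨ω₀, hαω, hωβ, not_lt.mp h3⟩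
      obtain ⟨σ, hσ⟩ := hC.lub (Set.range (fun l : ℕ => c k ^ l • ω₀))
      have t1 : σ ≤ h • ω₀ := hσ.2 (by rintro _ ⟨l, rfl⟩; exact (hlt l).le)
      have t2 : σ < β := by
        refine lt_of_le_of_lt t1 ?_
        have := hC.strictMono h hωβ
        rwa [hh.2] at this
      have t3 : ω₀ ≤ σ := by
        have : c k ^ 0 • ω₀ ≤ σ := hσ.1 ⟨0, rfl⟩
        simpa using this
      have t4 := hpos' σ (lt_of_lt_of_le hαω t3) t2
      have t5 : σ ≤ (c k)⁻¹ • σ := by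
        apply hσ.2
        rintro _ ⟨l, rfl⟩
        rw [hC.le_inv_iff, smul_smul, ← pow_succ']
        exact hσ.1 ⟨l + 1, rfl⟩
      rw [hC.le_inv_iff] at t5
      exact absurd t4 (not_lt.mpr t5)
    have hg := growth K (fun x y => R G α β x y) htrans
      (fun x y z h1 => hC.R_left _ _ z h1)
      (fun x y z hz h1 => hC.R_right _ _ z hz.1 hz.2 h1)
      (c k) hκK hposR hrefl harch d (fun j i => hdK i j) hds k
      ⟨0, fun i _ => (hkk i).1⟩ k le_rfl
    obtain ⟨i₀, hi₀⟩ := hg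
    have hall : ∀ i, i₀ ≤ i → ω₀ < d 0 i • ω₀ := by
      intro i hi
      by_contra h3
      have h4 : R G α β (d 0 i) 1 := ⟨ω₀, hαω, hωβ, by rw [one_smul]; exact not_lt.mp h3⟩
      have h5 := hi₀ i hi
      rw [Nat.sub_self] at h5
      exact hpos (htrans _ _ _ h5 h4)
    have h6 := hall i₀ le_rfl
    have h7 := hall (i₀ + 1) (by omega)
    rcases hC.inf_act (d 0 i₀) (d 0 (i₀ + 1)) ω₀ with h | h
    · rw [hb, one_smul] at h
      rw [← h] at h6
      exact lt_irrefl _ h6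
    · rw [hb, one_smul] at h
      rw [← h] at h7
      exact lt_irrefl _ h7

end ChainAct

end Pool.Agent.H12.Engel
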