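import Pool.Agent.H12.EngelMain

/-!
Existence of separating chains for a lattice-ordered group, and representability of a
lattice-ordered group in which `1 ≤ a`, `a ⊓ g⁻¹ * a * g = 1` forces `a = 1`.
-/

set_option autoImplicit false

namespace Pool.Agent.H12.Engel

universe u

variable {G : Type u} [Group G] [Lattice G]

/-- chain of lower sets of `G` stable under right multiplication by `C`. -/
def Om (C : Set G) : Type u :=
  {T : Set G // IsLowerSet T ∧ ∀ t ∈ T, ∀ p ∈ C, t * p ∈ T}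

section

variable [MulLeftMono G]

/-- left translation action. -/
def Om.act {C : Set G} (g : G) (T : Om C) : Om C :=
  ⟨{x | g⁻¹ * x ∈ T.1}, by
    constructor
    · intro x y hxy hx
      exact T.2.1 (mul_le_mul_right hxy g⁻¹) hx
    · intro t ht p hp
      change g⁻¹ * (t * p) ∈ T.1
      rw [← mul_assoc]
      exact T.2.2 _ ht p hp⟩

instance (C : Set G) : MulAction G (Om C) where
  smul := Om.act
  one_smul T := Subtype.ext (by
    change {x | (1 : G)⁻¹ * x ∈ T.1} = T.1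
    simp)
  mul_smul g h T := Subtype.ext (by
    change {x | (g * h)⁻¹ * x ∈ T.1} = {x | g⁻¹ * x ∈ {y | h⁻¹ * y ∈ T.1}}
    ext x
    simp [mul_assoc])

theorem Om.mem_smul {C : Set G} (g : G) (T : Om C) (x : G) :
    x ∈ (g • T).1 ↔ g⁻¹ * x ∈ T.1 := Iff.rfl

end

/-- the primality hypothesis on `C`. -/
def PrimeLike (C : Set G) : Prop := ∀ h : G, h ⊔ 1 ∈ C ∨ h⁻¹ ⊔ 1 ∈ C

noncomputable def Om.linearOrder [MulLeftMono G] {C : Set G} (hC : PrimeLike C) :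
    LinearOrder (Om C) :=
  { Subtype.partialOrder (fun T : Set G => IsLowerSet T ∧ ∀ t ∈ T, ∀ p ∈ C, t * p ∈ T) with
    le_total := by
      intro T T'
      by_contra hcon
      push Not at hcon
      obtain ⟨h1, h2⟩ := hcon
      obtain ⟨t, ht, ht'⟩ := Set.not_subset.mp h1
      obtain ⟨s, hs, hs'⟩ := Set.not_subset.mp h2
      rcases hC (t⁻¹ * s) with h | h
      · apply hs'
        have h3 := T.2.2 t ht _ h
        refine T.2.1 ?_ h3
        calc s = t * (t⁻¹ * s) := by group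
          _ ≤ t * (t⁻¹ * s ⊔ 1) := mul_le_mul_right le_sup_left t
      · apply ht'
        have h3 := T'.2.2 s hs _ h
        refine T'.2.1 ?_ h3
        calc t = s * (t⁻¹ * s)⁻¹ := by group
          _ ≤ s * ((t⁻¹ * s)⁻¹ ⊔ 1) := mul_le_mul_right le_sup_left s
    toDecidableLE := Classical.decRel _ }

theorem Om.chainAct [MulLeftMono G] [MulRightMono G] {C : Set G} (hC : PrimeLike C) :
    letI := Om.linearOrder hC
    ChainAct G (Om C) := by
  letI := Om.linearOrder hC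
  have hle : ∀ T T' : Om C, T ≤ T' ↔ T.1 ⊆ T'.1 := fun _ _ => Iff.rfl
  have hact : ∀ {g h : G}, g ≤ h → ∀ ω : Om C, g • ω ≤ h • ω := by
    intro g h hgh ω
    rw [hle]
    intro x hx
    rw [Om.mem_smul] at hx ⊢
    refine ω.2.1 ?_ hx
    exact mul_le_mul_left (inv_le_inv_iff.mpr hgh) x
  refine ⟨?_, hact, ?_, ?_⟩
  · intro g ω ω' h x hx
    exact h hx
  · intro g h ω
    -- each element of (g ⊔ h) • ω lies in g • ω or in h • ω
    have key : ∀ x ∈ ((g ⊔ h) • ω).1, x ∈ (g • ω).1 ∨ x ∈ (h • ω).1 := by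
      intro x hx
      rw [Om.mem_smul] at hx
      rw [Om.mem_smul, Om.mem_smul]
      set t := (g ⊔ h)⁻¹ * x with ht
      have hxt : x = (g ⊔ h) * t := by rw [ht]; group
      rcases hC (t⁻¹ * g⁻¹ * h * t) with h1 | h1
      · left
        have h2 := ω.2.2 t hx _ h1
        have h3 : g⁻¹ * x = t * (t⁻¹ * g⁻¹ * h * t ⊔ 1) := by
          rw [hxt, mul_sup, ← mul_assoc, mul_sup, sup_mul, sup_comm]
          congr 1 <;> group
        rw [h3]; exact h2
      · right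
        have h2 := ω.2.2 t hx _ h1
        have h3 : h⁻¹ * x = t * ((t⁻¹ * g⁻¹ * h * t)⁻¹ ⊔ 1) := by
          rw [hxt, mul_sup, ← mul_assoc, mul_sup, sup_mul]
          congr 1 <;> group
        rw [h3]; exact h2
    rcases le_total (g • ω) (h • ω) with h1 | h1
    · right
      apply le_antisymm _ (hact le_sup_right ω)
      intro x hx
      rcases key x hx with h2 | h2
      · exact h1 h2
      · exact h2
    · left
      apply le_antisymm _ (hact le_sup_left ω)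
      intro x hx
      rcases key x hx with h2 | h2
      · exact h2
      · exact h1 h2
  · intro S
    refine ⟨⟨{x | ∃ T ∈ S, x ∈ T.1}, ?_, ?_⟩, ?_, ?_⟩
    · rintro x y hxy ⟨T, hT, hx⟩
      exact ⟨T, hT, T.2.1 hxy hx⟩
    · rintro t ⟨T, hT, ht⟩ p hp
      exact ⟨T, hT, T.2.2 t ht p hp⟩
    · intro T hT x hx
      exact ⟨T, hT, hx⟩
    · rintro T' hT' x ⟨T, hT, hx⟩
      exact hT' hT hx

/-- solid submonoids of the positive cone. -/
structure Solid (C : Set G) : Prop where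
  pos : ∀ x ∈ C, 1 ≤ x
  one : 1 ∈ C
  mul : ∀ x ∈ C, ∀ y ∈ C, x * y ∈ C
  solid : ∀ x y, 1 ≤ x → x ≤ y → y ∈ C → x ∈ C

variable [MulLeftMono G] [MulRightMono G]

theorem inf_mul_le' {x y z : G} (hx : 1 ≤ x) (hy : 1 ≤ y) (hz : 1 ≤ z) :
    (x * y) ⊓ z ≤ (x ⊓ z) * (y ⊓ z) := by
  rw [mul_inf, inf_mul, inf_mul]
  refine le_inf (le_inf inf_le_left ?_) (le_inf ?_ ?_)
  · exact inf_le_right.trans (le_mul_of_one_le_right' hy)
  · exact inf_le_right.trans (le_mul_of_one_le_left' hx)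
  · exact inf_le_right.trans (le_mul_of_one_le_right' hz)

/-- the solid submonoid `{z ≥ 1 : z ⊓ y ∈ C}`. -/
theorem Solid.polar {C : Set G} (hC : Solid C) {y : G} (hy : 1 ≤ y) :
    Solid {z : G | 1 ≤ z ∧ z ⊓ y ∈ C} where
  pos z hz := hz.1
  one := ⟨le_refl _, by rw [inf_eq_left.mpr hy]; exact hC.one⟩
  mul x hx z hz := by
    refine ⟨one_le_mul hx.1 hz.1, ?_⟩
    exact hC.solid _ _ (le_inf (one_le_mul hx.1 hz.1) hy) (inf_mul_le' hx.1 hz.1 hy)
      (hC.mul _ hx.2 _ hz.2)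
  solid x z h1 h2 h3 :=
    ⟨h1, hC.solid _ _ (le_inf h1 hy) (inf_le_inf_right y h2) h3.2⟩

theorem exists_prime {a : G} (ha : 1 ≤ a) (ha1 : a ≠ 1) :
    ∃ C : Set G, Solid C ∧ a ∉ C ∧ PrimeLike C := by
  have hne : Solid ({1} : Set G) ∧ a ∉ ({1} : Set G) := by
    refine ⟨⟨?_, rfl, ?_, ?_⟩, ha1⟩
    · rintro x rfl; exact le_refl _
    · rintro x rfl y rfl; exact mul_one 1
    · rintro x y h1 h2 h3
      rw [Set.mem_singleton_iff] at h3
      subst h3
      exact le_antisymm h2 h1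
  obtain ⟨C, -, hC⟩ := zorn_subset_nonempty {C : Set G | Solid C ∧ a ∉ C} (by
    intro c hc hchain hcne
    refine ⟨⋃₀ c, ⟨⟨?_, ?_, ?_, ?_⟩, ?_⟩, fun s hs => Set.subset_sUnion_of_mem hs⟩
    · rintro x ⟨s, hs, hx⟩
      exact (hc hs).1.pos x hx
    · obtain ⟨s, hs⟩ := hcne
      exact ⟨s, hs, (hc hs).1.one⟩
    · rintro x ⟨s, hs, hx⟩ y ⟨s', hs', hy⟩
      rcases hchain.total hs hs' with h | h
      · exact ⟨s', hs', (hc hs').1.mul x (h hx) y hy⟩
      · exact ⟨s, hs, (hc hs).1.mul x hx y (h hy)⟩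
    · rintro x y h1 h2 ⟨s, hs, hy⟩
      exact ⟨s, hs, (hc hs).1.solid x y h1 h2 hy⟩
    · rintro ⟨s, hs, hx⟩
      exact (hc hs).2 hx) {1} hne
  obtain ⟨⟨hCs, haC⟩, hmax⟩ := hC
  refine ⟨C, hCs, haC, ?_⟩
  have prime : ∀ x y : G, 1 ≤ x → 1 ≤ y → x ⊓ y = 1 → x ∈ C ∨ y ∈ C := by
    intro x y hx hy hxy
    by_cases h1 : a ⊓ y ∈ C
    · right
      have hs := hCs.polar ha
      have hsub : C ⊆ {z : G | 1 ≤ z ∧ z ⊓ a ∈ C} := fun z hz =>
        ⟨hCs.pos z hz, hCs.solid _ _ (le_inf (hCs.pos z hz) ha) inf_le_left hz⟩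
      have hna : a ∉ {z : G | 1 ≤ z ∧ z ⊓ a ∈ C} := by
        rintro ⟨_, h⟩
        rw [inf_idem] at h
        exact haC h
      have := hmax ⟨hs, hna⟩ hsub
      exact this ⟨hy, by rw [inf_comm]; exact h1⟩
    · left
      have hs := hCs.polar hy
      have hsub : C ⊆ {z : G | 1 ≤ z ∧ z ⊓ y ∈ C} := fun z hz =>
        ⟨hCs.pos z hz, hCs.solid _ _ (le_inf (hCs.pos z hz) hy) inf_le_left hz⟩
      have hna : a ∉ {z : G | 1 ≤ z ∧ z ⊓ y ∈ C} := fun h => h1 h.2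
      have := hmax ⟨hs, hna⟩ hsub
      exact this ⟨hx, by rw [hxy]; exact hCs.one⟩
  intro h
  exact prime _ _ le_sup_right le_sup_right (oneLePart_inf_leOnePart_eq_one h)

/-- In an Engel lattice-ordered group disjoint conjugates are trivial. -/
theorem engel_disjoint_conj (hE : IsEngel G) (a g : G) (ha : 1 ≤ a)
    (hd : a ⊓ g⁻¹ * a * g = 1) : a = 1 := by
  by_contra ha1
  obtain ⟨C, hCs, haC, hCp⟩ := exists_prime ha ha1
  letI := Om.linearOrder hCp
  have hact : ChainAct G (Om C) := Om.chainAct hCp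
  let ω₀ : Om C := ⟨{t | ∃ c ∈ C, t ≤ c}, by
    constructor
    · rintro x y hxy ⟨c, hc, hxc⟩
      exact ⟨c, hc, le_trans hxy hxc⟩
    · rintro t ⟨c, hc, htc⟩ p hp
      exact ⟨c * p, hCs.mul c hc p hp, mul_le_mul_left htc p⟩⟩
  have h1 := hact.disjoint_conj hE a g ha hd ω₀
  have h2 : a ∈ (a • ω₀).1 := by
    rw [Om.mem_smul, inv_mul_cancel]
    exact ⟨1, hCs.one, le_refl _⟩
  rw [h1] at h2
  obtain ⟨c, hc, hac⟩ := h2
  exact haC (hCs.solid a c ha hac hc)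

/-- filters avoiding `1` and containing `a`. -/
structure IsF (a : G) (F : Set G) : Prop where
  mem : a ∈ F
  not_one : 1 ∉ F
  pos : ∀ x ∈ F, 1 ≤ x
  up : ∀ x ∈ F, ∀ y, x ≤ y → y ∈ F
  inf : ∀ x ∈ F, ∀ y ∈ F, x ⊓ y ∈ F

omit [MulLeftMono G] [MulRightMono G] in
theorem exists_filter {a : G} (ha : 1 ≤ a) (ha1 : a ≠ 1) :
    ∃ F : Set G, IsF a F ∧ ∀ y, 1 ≤ y → y ∉ F → ∃ x ∈ F, x ⊓ y = 1 := by
  have hne : IsF a {x | a ≤ x} := by
    refine ⟨le_refl _, ?_, ?_, ?_, ?_⟩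
    · intro h
      exact ha1 (le_antisymm h ha)
    · intro x hx; exact le_trans ha hx
    · intro x hx y hxy; exact le_trans hx hxy
    · intro x hx y hy; exact le_inf hx hy
  obtain ⟨F, -, hF⟩ := zorn_subset_nonempty {F : Set G | IsF a F} (by
    intro c hc hchain hcne
    refine ⟨⋃₀ c, ⟨?_, ?_, ?_, ?_, ?_⟩, fun s hs => Set.subset_sUnion_of_mem hs⟩
    · obtain ⟨s, hs⟩ := hcne
      exact ⟨s, hs, (hc hs).mem⟩
    · rintro ⟨s, hs, h⟩
      exact (hc hs).not_one h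
    · rintro x ⟨s, hs, hx⟩
      exact (hc hs).pos x hx
    · rintro x ⟨s, hs, hx⟩ y hxy
      exact ⟨s, hs, (hc hs).up x hx y hxy⟩
    · rintro x ⟨s, hs, hx⟩ y ⟨s', hs', hy⟩
      rcases hchain.total hs hs' with h | h
      · exact ⟨s', hs', (hc hs').inf x (h hx) y hy⟩
      · exact ⟨s, hs, (hc hs).inf x hx y (h hy)⟩) _ hne
  obtain ⟨hFF, hmax⟩ := hF
  refine ⟨F, hFF, ?_⟩
  intro y hy hyF
  by_contra hcon
  push Not at hcon
  have hF' : IsF a {z | ∃ x ∈ F, x ⊓ y ≤ z} := by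
    refine ⟨⟨a, hFF.mem, inf_le_left⟩, ?_, ?_, ?_, ?_⟩
    · rintro ⟨x, hx, h⟩
      exact hcon x hx (le_antisymm h (le_inf (hFF.pos x hx) hy))
    · rintro z ⟨x, hx, h⟩
      exact le_trans (le_inf (hFF.pos x hx) hy) h
    · rintro z ⟨x, hx, h⟩ w hw
      exact ⟨x, hx, h.trans hw⟩
    · rintro z ⟨x, hx, h⟩ w ⟨x', hx', h'⟩
      refine ⟨x ⊓ x', hFF.inf x hx x' hx', le_inf ?_ ?_⟩
      · exact le_trans (inf_le_inf_right y inf_le_left) h
      · exact le_trans (inf_le_inf_right y inf_le_right) h'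
  have hsub : F ⊆ {z | ∃ x ∈ F, x ⊓ y ≤ z} := fun x hx => ⟨x, hx, inf_le_left⟩
  have := hmax hF' hsub
  obtain ⟨x, hx⟩ : ∃ x, x ∈ F := ⟨a, hFF.mem⟩
  exact hyF (this ⟨x, hx, inf_le_right⟩)

/-- Representability from disjointness of conjugates. -/
theorem residually_ordered
    (hR : ∀ a g : G, 1 ≤ a → a ⊓ g⁻¹ * a * g = 1 → a = 1) (g₀ : G) (hg₀ : g₀ ≠ 1) :
    ∃ (H : Type u) (_ : Group H) (_ : LinearOrder H) (_ : MulLeftMono H)
      (_ : MulRightMono H) (f : G →* H),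
      (∀ a b : G, f (a ⊔ b) = f a ⊔ f b) ∧
      (∀ a b : G, f (a ⊓ b) = f a ⊓ f b) ∧
      f g₀ ≠ 1 := by
  -- disjointness is invariant under conjugating one factor
  have hR' : ∀ x y k : G, 1 ≤ x → 1 ≤ y → x ⊓ y = 1 → x ⊓ k⁻¹ * y * k = 1 := by
    intro x y k hx hy hxy
    have hyk : 1 ≤ k⁻¹ * y * k := by
      have := mul_le_mul_left (mul_le_mul_right hy k⁻¹) k
      simpa using this
    apply hR _ k⁻¹ (le_inf hx hyk)
    apply le_antisymm
    · calc (x ⊓ k⁻¹ * y * k) ⊓ k⁻¹⁻¹ * (x ⊓ k⁻¹ * y * k) * k⁻¹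
          ≤ x ⊓ k⁻¹⁻¹ * (k⁻¹ * y * k) * k⁻¹ :=
            inf_le_inf inf_le_left (mul_le_mul_left (mul_le_mul_right inf_le_right _) _)
        _ = x ⊓ y := by congr 1; group
        _ = 1 := hxy
    · refine le_inf (le_inf hx hyk) ?_
      have := mul_le_mul_left (mul_le_mul_right (le_inf hx hyk) k⁻¹⁻¹) k⁻¹
      simpa using this
  have habs1 : 1 ≤ g₀ ⊔ g₀⁻¹ := one_le_mabs g₀
  have habs : g₀ ⊔ g₀⁻¹ ≠ 1 := by
    intro h
    have h1 : g₀ ≤ 1 := h ▸ le_sup_left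
    have h2 : g₀⁻¹ ≤ 1 := h ▸ le_sup_right
    exact hg₀ (le_antisymm h1 (inv_le_one'.mp h2))
  obtain ⟨F, hF, hFmax⟩ := exists_filter habs1 habs
  set C : Set G := {y | 1 ≤ y ∧ ∃ x ∈ F, x ⊓ y = 1} with hCdef
  have hCs : Solid C := by
    refine ⟨fun x hx => hx.1, ⟨le_refl _, _, hF.mem, ?_⟩, ?_, ?_⟩
    · exact inf_eq_right.mpr habs1
    · rintro y ⟨hy, x, hx, hxy⟩ z ⟨hz, x', hx', hxz⟩
      refine ⟨one_le_mul hy hz, x ⊓ x', hF.inf x hx x' hx', ?_⟩
      have hx1 := hF.pos x hx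
      have hx1' := hF.pos x' hx'
      apply le_antisymm _ (le_inf (le_inf hx1 hx1') (one_le_mul hy hz))
      rw [inf_comm]
      refine (inf_mul_le' hy hz (le_inf hx1 hx1')).trans ?_
      have e1 : y ⊓ (x ⊓ x') ≤ 1 := by
        rw [← hxy, inf_comm x y]
        exact inf_le_inf_left y inf_le_left
      have e2 : z ⊓ (x ⊓ x') ≤ 1 := by
        rw [← hxz, inf_comm x' z]
        exact inf_le_inf_left z inf_le_right
      exact mul_le_one' e1 e2
    · rintro y z hy hyz ⟨hz, x, hx, hxz⟩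
      refine ⟨hy, x, hx, le_antisymm ?_ (le_inf (hF.pos x hx) hy)⟩
      rw [← hxz]
      exact inf_le_inf_left x hyz
  have hprime : PrimeLike C := by
    intro h
    by_cases h1 : h ⊔ 1 ∈ F
    · right
      exact ⟨le_sup_right, _, h1, oneLePart_inf_leOnePart_eq_one h⟩
    · left
      exact ⟨le_sup_right, hFmax _ le_sup_right h1⟩
  have hconj : ∀ y ∈ C, ∀ k : G, k⁻¹ * y * k ∈ C := by
    rintro y ⟨hy, x, hx, hxy⟩ k
    refine ⟨?_, x, hx, hR' x y k (hF.pos x hx) hy hxy⟩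
    have := mul_le_mul_left (mul_le_mul_right hy k⁻¹) k
    simpa using this
  have haC : g₀ ⊔ g₀⁻¹ ∉ C := by
    rintro ⟨_, x, hx, h⟩
    exact hF.not_one (h ▸ hF.inf x hx _ hF.mem)
  -- the kernel
  have hsupmul : ∀ x y : G, x * y ⊔ 1 ≤ (x ⊔ 1) * (y ⊔ 1) := by
    intro x y
    refine sup_le ?_ (one_le_mul le_sup_right le_sup_right)
    exact mul_le_mul' le_sup_left le_sup_left
  let N : Subgroup G :=
    { carrier := {x | x ⊔ 1 ∈ C ∧ x⁻¹ ⊔ 1 ∈ C}
      mul_mem' := by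
        rintro x y ⟨h1, h2⟩ ⟨h3, h4⟩
        refine ⟨hCs.solid _ _ le_sup_right (hsupmul x y) (hCs.mul _ h1 _ h3), ?_⟩
        rw [mul_inv_rev]
        exact hCs.solid _ _ le_sup_right (hsupmul y⁻¹ x⁻¹) (hCs.mul _ h4 _ h2)
      one_mem' := by simpa using hCs.one
      inv_mem' := by
        rintro x ⟨h1, h2⟩
        exact ⟨h2, by rwa [inv_inv]⟩ }
  have hNmem : ∀ x, x ∈ N ↔ (x ⊔ 1 ∈ C ∧ x⁻¹ ⊔ 1 ∈ C) := fun x => Iff.rfl
  have hNpos : ∀ x, 1 ≤ x → (x ∈ N ↔ x ∈ C) := by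
    intro x hx
    rw [hNmem, sup_eq_left.mpr hx, sup_eq_right.mpr (inv_le_one'.mpr hx)]
    exact ⟨fun h => h.1, fun h => ⟨h, hCs.one⟩⟩
  have hconjsup : ∀ x k : G, k * x * k⁻¹ ⊔ 1 = (k⁻¹)⁻¹ * (x ⊔ 1) * k⁻¹ := by
    intro x k
    rw [mul_sup, sup_mul]
    congr 1 <;> group
  haveI hN : N.Normal := by
    constructor
    rintro x ⟨h1, h2⟩ k
    refine ⟨?_, ?_⟩
    · rw [hconjsup]; exact hconj _ h1 _
    · have : (k * x * k⁻¹)⁻¹ = k * x⁻¹ * k⁻¹ := by group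
      rw [this, hconjsup]; exact hconj _ h2 _
  -- the order on the quotient
  let le' : G ⧸ N → G ⧸ N → Prop := fun q q' => ∃ p : G, 1 ≤ p ∧ q' = q * (p : G ⧸ N)
  have hdecomp : ∀ x : G, x = (x ⊔ 1) * (x⁻¹ ⊔ 1)⁻¹ := by
    intro x
    have := oneLePart_div_leOnePart x
    rw [div_eq_mul_inv] at this
    exact this.symm
  let lo : LinearOrder (G ⧸ N) :=
    { le := le'
      le_refl := fun q => ⟨1, le_refl _, by simp⟩
      le_trans := by
        rintro q r s ⟨p, hp, rfl⟩ ⟨p', hp', rfl⟩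
        exact ⟨p * p', one_le_mul hp hp', by simp [mul_assoc]⟩
      le_antisymm := by
        rintro q r ⟨p, hp, rfl⟩ ⟨p', hp', h⟩
        have h1 : ((p * p' : G) : G ⧸ N) = 1 := by
          rw [mul_assoc] at h
          have h2 := mul_left_cancel (a := q) (h.symm.trans (mul_one q).symm)
          rw [QuotientGroup.mk_mul]
          exact h2
        rw [QuotientGroup.eq_one_iff] at h1
        rw [hNpos _ (one_le_mul hp hp')] at h1
        have h3 : p ∈ C := hCs.solid _ _ hp (le_mul_of_one_le_right' hp') h1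
        have h4 : (p : G ⧸ N) = 1 := by
          rw [QuotientGroup.eq_one_iff, hNpos _ hp]; exact h3
        rw [h4, mul_one]
      le_total := by
        intro q r
        obtain ⟨x, rfl⟩ := QuotientGroup.mk_surjective q
        obtain ⟨y, rfl⟩ := QuotientGroup.mk_surjective r
        rcases hprime (x⁻¹ * y) with h | h
        · right
          refine ⟨(x⁻¹ * y)⁻¹ ⊔ 1, le_sup_right, ?_⟩
          have h1 : ((x⁻¹ * y ⊔ 1 : G) : G ⧸ N) = 1 := by
            rw [QuotientGroup.eq_one_iff, hNpos _ le_sup_right]; exact h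
          have h2 : ((x⁻¹ * y : G) : G ⧸ N) = ((((x⁻¹ * y)⁻¹ ⊔ 1 : G)) : G ⧸ N)⁻¹ := by
            conv_lhs => rw [hdecomp (x⁻¹ * y)]
            rw [QuotientGroup.mk_mul, h1, one_mul, QuotientGroup.mk_inv]
          rw [QuotientGroup.mk_mul, QuotientGroup.mk_inv] at h2
          have h3 := congrArg (fun z => (x : G ⧸ N) * z *
            ((((x⁻¹ * y)⁻¹ ⊔ 1 : G)) : G ⧸ N)) h2
          simpa using h3.symm
        · left
          refine ⟨x⁻¹ * y ⊔ 1, le_sup_right, ?_⟩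
          have h1 : (((x⁻¹ * y)⁻¹ ⊔ 1 : G) : G ⧸ N) = 1 := by
            rw [QuotientGroup.eq_one_iff, hNpos _ le_sup_right]; exact h
          have h2 : ((x⁻¹ * y : G) : G ⧸ N) = ((x⁻¹ * y ⊔ 1 : G) : G ⧸ N) := by
            conv_lhs => rw [hdecomp (x⁻¹ * y)]
            rw [QuotientGroup.mk_mul, QuotientGroup.mk_inv, h1, inv_one, mul_one]
          rw [← h2, ← QuotientGroup.mk_mul]
          congr 1
          group
      toDecidableLE := Classical.decRel _ }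
  have hle_iff : ∀ q r : G ⧸ N, q ≤ r ↔ ∃ p : G, 1 ≤ p ∧ r = q * (p : G ⧸ N) :=
    fun q r => Iff.rfl
  have hL : MulLeftMono (G ⧸ N) := by
    constructor
    rintro c q r ⟨p, hp, rfl⟩
    exact ⟨p, hp, by simp [mul_assoc]⟩
  have hRt : MulRightMono (G ⧸ N) := by
    constructor
    rintro c q r ⟨p, hp, rfl⟩
    obtain ⟨k, rfl⟩ := QuotientGroup.mk_surjective c
    refine ⟨k⁻¹ * p * k, ?_, ?_⟩
    · have := mul_le_mul_left (mul_le_mul_right hp k⁻¹) k
      simpa using this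
    · simp [Function.swap, mul_assoc]
  have hmono : ∀ a b : G, a ≤ b → (a : G ⧸ N) ≤ (b : G ⧸ N) := by
    intro a b hab
    refine ⟨a⁻¹ * b, ?_, ?_⟩
    · have := mul_le_mul_right hab a⁻¹
      simpa using this
    · rw [← QuotientGroup.mk_mul]; congr 1; group
  have hsup1 : ∀ a b : G, (a : G ⧸ N) ≤ (b : G ⧸ N) → ((a ⊔ b : G) : G ⧸ N) = (b : G ⧸ N) := by
    intro a b hab
    have hx : ((b⁻¹ * a ⊔ 1 : G) : G ⧸ N) = 1 := by
      rcases hprime (b⁻¹ * a) with h | h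
      · rw [QuotientGroup.eq_one_iff, hNpos _ le_sup_right]; exact h
      · have h1 : (((b⁻¹ * a)⁻¹ ⊔ 1 : G) : G ⧸ N) = 1 := by
          rw [QuotientGroup.eq_one_iff, hNpos _ le_sup_right]; exact h
        have h2 : ((b⁻¹ * a : G) : G ⧸ N) = ((b⁻¹ * a ⊔ 1 : G) : G ⧸ N) := by
          conv_lhs => rw [hdecomp (b⁻¹ * a)]
          rw [QuotientGroup.mk_mul, QuotientGroup.mk_inv, h1, inv_one, mul_one]
        apply le_antisymm
        · rw [← h2, QuotientGroup.mk_mul]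
          have := mul_le_mul_right hab ((b⁻¹ : G) : G ⧸ N)
          rw [← QuotientGroup.mk_mul, ← QuotientGroup.mk_mul] at this
          simpa using this
        · have := hmono 1 (b⁻¹ * a ⊔ 1) le_sup_right
          simpa using this
    have h3 : a ⊔ b = b * (b⁻¹ * a ⊔ 1) := by
      rw [mul_sup, mul_one, ← mul_assoc, mul_inv_cancel, one_mul]
    rw [h3, QuotientGroup.mk_mul, hx, mul_one]
  have hsup : ∀ a b : G, ((a ⊔ b : G) : G ⧸ N) = (a : G ⧸ N) ⊔ (b : G ⧸ N) := by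
    intro a b
    rcases le_total (a : G ⧸ N) (b : G ⧸ N) with h | h
    · rw [hsup1 a b h, sup_eq_right.mpr h]
    · rw [sup_comm a b, hsup1 b a h, sup_eq_left.mpr h]
  refine ⟨G ⧸ N, inferInstance, lo, hL, hRt, QuotientGroup.mk' N, hsup, ?_, ?_⟩
  · intro a b
    have h1 : a ⊓ b = (a⁻¹ ⊔ b⁻¹)⁻¹ := by rw [inv_sup, inv_inv, inv_inv]
    change ((a ⊓ b : G) : G ⧸ N) = (a : G ⧸ N) ⊓ (b : G ⧸ N)
    rw [h1, QuotientGroup.mk_inv, hsup, inv_sup, QuotientGroup.mk_inv, QuotientGroup.mk_inv,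
      inv_inv, inv_inv]
  · intro h
    change ((g₀ : G) : G ⧸ N) = 1 at h
    have h1 : ((g₀ ⊔ g₀⁻¹ : G) : G ⧸ N) = 1 := by
      rw [hsup, QuotientGroup.mk_inv, h, inv_one, sup_idem]
    rw [QuotientGroup.eq_one_iff, hNpos _ habs1] at h1
    exact haC h1

theorem engel_residually_ordered (hE : IsEngel G) (g₀ : G) (hg₀ : g₀ ≠ 1) :
    ∃ (H : Type u) (_ : Group H) (_ : LinearOrder H) (_ : MulLeftMono H)
      (_ : MulRightMono H) (f : G →* H),
      (∀ a b : G, f (a ⊔ b) = f a ⊔ f b) ∧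
      (∀ a b : G, f (a ⊓ b) = f a ⊓ f b) ∧
      f g₀ ≠ 1 :=
  residually_ordered (fun a g ha h => engel_disjoint_conj hE a g ha h) g₀ hg₀

end Pool.Agent.H12.Engel
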